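import Pool.Agent.F5H.StmtsA

set_option autoImplicit false

/-!
# Squad F5H, row A_EX1: the difference as an integral over the classes
-/

open MeasureTheory Filter Topology

namespace Pool.Agent.F5H.H39

open Pool.Agent.BTL Pool.Agent.F5S Pool.Agent.F5H

/-- crude bound for the values of a form -/
theorem qf_abs_le (A : ℝ × ℝ × ℝ) (u : ℝ × ℝ) (B : ℝ) (hu : ‖u‖ ≤ B) :
    |qf A u| ≤ (|A.1| + 2 * |A.2.1| + |A.2.2|) * B ^ 2 := by
  have h1 : |u.1| ≤ B := (norm_fst_le u).trans hu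
  have h2 : |u.2| ≤ B := (norm_snd_le u).trans hu
  have hB : 0 ≤ B := (norm_nonneg u).trans hu
  have k1 : |u.1| * |u.1| ≤ B * B := mul_le_mul h1 h1 (abs_nonneg _) hB
  have k2 : |u.1| * |u.2| ≤ B * B := mul_le_mul h1 h2 (abs_nonneg _) hB
  have k3 : |u.2| * |u.2| ≤ B * B := mul_le_mul h2 h2 (abs_nonneg _) hB
  unfold qf
  have e1 : |A.1 * u.1 ^ 2| = |A.1| * (|u.1| * |u.1|) := by
    rw [abs_mul, sq, abs_mul]
  have e2 : |2 * A.2.1 * u.1 * u.2| = 2 * |A.2.1| * (|u.1| * |u.2|) := by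
    rw [abs_mul, abs_mul, abs_mul, abs_two]; ring
  have e3 : |A.2.2 * u.2 ^ 2| = |A.2.2| * (|u.2| * |u.2|) := by
    rw [abs_mul, sq, abs_mul]
  calc |A.1 * u.1 ^ 2 + 2 * A.2.1 * u.1 * u.2 + A.2.2 * u.2 ^ 2|
      ≤ |A.1 * u.1 ^ 2| + |2 * A.2.1 * u.1 * u.2| + |A.2.2 * u.2 ^ 2| := abs_add_three _ _ _
    _ ≤ |A.1| * (B * B) + 2 * |A.2.1| * (B * B) + |A.2.2| * (B * B) := by
      rw [e1, e2, e3]
      have i1 := mul_le_mul_of_nonneg_left k1 (abs_nonneg A.1)
      have i2 := mul_le_mul_of_nonneg_left k2 (by positivity : (0 : ℝ) ≤ 2 * |A.2.1|)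
      have i3 := mul_le_mul_of_nonneg_left k3 (abs_nonneg A.2.2)
      linarith
    _ = (|A.1| + 2 * |A.2.1| + |A.2.2|) * B ^ 2 := by ring

theorem difr_r3 (A : ℝ × ℝ × ℝ) (t : Z6) : difr A (r3 t) = dif A t := rfl

section

variable {L R e ρ : ℝ} {p : ℝ × ℝ} {W : R6 → ℝ} {A : ℝ × ℝ × ℝ}

/-- for a fixed point `x` -/
theorem one_point (clf : CLFStmt) (ggf : GGFStmt) (hL : 0 < L) (hR : 0 < R) (he : 0 < e)
    (hρ : 0 < ρ) (hWm : Measurable W) (hW : ∀ c, 0 ≤ W c ∧ W c ≤ 1)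
    (hWs : ∀ c, W c ≠ 0 → ‖c‖ ≤ ρ) (x : R6) :
    Integrable (fun z : R6 × ℝ => W z.1 * (cl6 L z.1 x * gg R e p A z.2 x)) ∧
    ∫ z : R6 × ℝ, W z.1 * (cl6 L z.1 x * gg R e p A z.2 x) =
      L ^ 6 * R * (Wb L W x * kk e (difr A x - p)) := by
  obtain ⟨c1, c2, c3, c4⟩ := clf L hL
  obtain ⟨g1, g2, g3, g4, -⟩ := ggf R e hR he p
  have hi : Integrable (fun c : R6 => W c * cl6 L c x) := by
    have hm : Measurable (fun c : R6 => W c * cl6 L c x) :=
      hWm.mul (c2.measurable.comp (measurable_id.prodMk measurable_const))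
    have hs : Function.support (fun c : R6 => W c * cl6 L c x) ⊆ Metric.closedBall 0 ρ := by
      intro c hc
      rw [Function.mem_support] at hc
      rw [mem_closedBall_zero_iff]
      exact hWs c (left_ne_zero_of_mul hc)
    rw [← integrableOn_iff_integrable_of_support_subset hs]
    refine Measure.integrableOn_of_bounded (M := 1) measure_closedBall_lt_top.ne
      hm.aestronglyMeasurable (Eventually.of_forall fun c => ?_)
    rw [Real.norm_of_nonneg (mul_nonneg (hW c).1 (c1 c x).1)]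
    exact mul_le_one₀ (hW c).2 (c1 c x).1 (c1 c x).2
  have he1 : (fun z : R6 × ℝ => W z.1 * (cl6 L z.1 x * gg R e p A z.2 x)) =
      fun z : R6 × ℝ => (fun c : R6 => W c * cl6 L c x) z.1 * (fun s => gg R e p A s x) z.2 := by
    funext z
    show _ = W z.1 * cl6 L z.1 x * gg R e p A z.2 x
    ring
  have hWb : Wb L W x = (L ^ 6)⁻¹ * ∫ c : R6, W c * cl6 L c x := by
    unfold Wb
    rw [← integral_const_mul]
    refine integral_congr_ae (Eventually.of_forall fun c => ?_)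
    show W c * pw L c x = (L ^ 6)⁻¹ * (W c * cl6 L c x)
    rw [c4 c x]
    ring
  refine ⟨?_, ?_⟩
  · rw [he1]
    exact hi.mul_prod (g4 A x).1
  · rw [he1]
    refine (integral_prod_mul (fun c : R6 => W c * cl6 L c x) (fun s => gg R e p A s x)).trans ?_
    rw [(g4 A x).2, hWb]
    have : L ^ 6 ≠ 0 := pow_ne_zero 6 hL.ne'
    field_simp

/-- the joint integrability -/
theorem joint (clf : CLFStmt) (ggf : GGFStmt) (hL : 0 < L) (hR : 0 < R) (he : 0 < e)
    (hρ : 0 < ρ) (hWm : Measurable W) (hW : ∀ c, 0 ≤ W c ∧ W c ≤ 1)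
    (hWs : ∀ c, W c ≠ 0 → ‖c‖ ≤ ρ) :
    Integrable (fun q : (R6 × ℝ) × R6 => W q.1.1 * (cl6 L q.1.1 q.2 * gg R e p A q.1.2 q.2))
      ((volume : Measure (R6 × ℝ)).prod (volume : Measure R6)) := by
  obtain ⟨c1, c2, c3, c4⟩ := clf L hL
  obtain ⟨g1, g2, g3, g4, -⟩ := ggf R e hR he p
  set K : ℝ := (|A.1| + 2 * |A.2.1| + |A.2.2|) * (ρ + L) ^ 2 + R + e with hK
  have hm : Measurable (fun q : (R6 × ℝ) × R6 =>
      W q.1.1 * (cl6 L q.1.1 q.2 * gg R e p A q.1.2 q.2)) := by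
    refine (hWm.comp (measurable_fst.comp measurable_fst)).mul ?_
    refine (c2.measurable.comp ((measurable_fst.comp measurable_fst).prodMk measurable_snd)).mul ?_
    exact g1.comp (measurable_const.prodMk
      ((measurable_snd.comp measurable_fst).prodMk measurable_snd))
  have hs : Function.support (fun q : (R6 × ℝ) × R6 =>
      W q.1.1 * (cl6 L q.1.1 q.2 * gg R e p A q.1.2 q.2)) ⊆
      (Metric.closedBall (0 : R6) ρ ×ˢ Metric.closedBall (0 : ℝ) K) ×ˢ
        Metric.closedBall (0 : R6) (ρ + L) := by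
    intro q hq
    rw [Function.mem_support] at hq
    have h1 := hWs _ (left_ne_zero_of_mul hq)
    have h2 := right_ne_zero_of_mul hq
    have h3 := c3 _ _ (left_ne_zero_of_mul h2)
    have h4 := g3 _ _ _ (right_ne_zero_of_mul h2)
    have h5 : ‖q.2‖ ≤ ρ + L := by
      calc ‖q.2‖ = ‖(q.2 - q.1.1) + q.1.1‖ := by rw [sub_add_cancel]
        _ ≤ ‖q.2 - q.1.1‖ + ‖q.1.1‖ := norm_add_le _ _
        _ ≤ ρ + L := by linarith
    have h6 : ‖q.2.2.2‖ ≤ ρ + L := ((norm_snd_le _).trans (norm_snd_le _)).trans h5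
    have h7 := qf_abs_le A q.2.2.2 (ρ + L) h6
    refine ⟨⟨?_, ?_⟩, ?_⟩
    · rw [mem_closedBall_zero_iff]; exact h1
    · rw [mem_closedBall_zero_iff, Real.norm_eq_abs]
      have h8 := h4.2.2
      have : |q.1.2| ≤ |qf A q.2.2.2| + |qf A q.2.2.2 - q.1.2| := by
        have h9 := abs_sub_abs_le_abs_sub q.1.2 (qf A q.2.2.2)
        rw [abs_sub_comm q.1.2] at h9
        linarith
      rw [hK]
      linarith
    · rw [mem_closedBall_zero_iff]; exact h5
  rw [← integrableOn_iff_integrable_of_support_subset hs]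
  refine Measure.integrableOn_of_bounded (M := e) ?_
      hm.aestronglyMeasurable (Eventually.of_forall fun q => ?_)
  · rw [Measure.prod_prod, Measure.volume_eq_prod, Measure.prod_prod]
    exact ENNReal.mul_ne_top (ENNReal.mul_ne_top measure_closedBall_lt_top.ne
      measure_closedBall_lt_top.ne) measure_closedBall_lt_top.ne
  · have k1 := hW q.1.1
    have k2 := c1 q.1.1 q.2
    have k3 := g2 A q.1.2 q.2
    rw [Real.norm_of_nonneg (mul_nonneg k1.1 (mul_nonneg k2.1 k3.1))]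
    calc W q.1.1 * (cl6 L q.1.1 q.2 * gg R e p A q.1.2 q.2)
        ≤ 1 * (1 * e) := by
          refine mul_le_mul k1.2 ?_ (mul_nonneg k2.1 k3.1) zero_le_one
          exact mul_le_mul k2.2 k3.2 k3.1 zero_le_one
      _ = e := by ring

end

theorem ex1 (clf : CLFStmt) (ggf : GGFStmt) : EX1Stmt := by
  intro T L R e ρ hL hR he hρ p W hWm hW hWs A
  have hO := fun x => one_point (L := L) (R := R) (e := e) (p := p) (A := A) clf ggf hL hR he hρ
    hWm hW hWs x
  have hJ := joint (L := L) (R := R) (e := e) (p := p) (A := A) clf ggf hL hR he hρ hWm hW hWs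
  set B := ball (4 * T) ×ˢ (ball (4 * T) ×ˢ ball (4 * T)) with hB
  have en : (fun z : R6 × ℝ => W z.1 * nn T L R e p A z) =
      fun z => ∑ t ∈ B, W z.1 * (cl6 L z.1 (r3 t) * gg R e p A z.2 (r3 t)) := by
    funext z
    unfold nn
    rw [Finset.mul_sum]
  have em : (fun z : R6 × ℝ => W z.1 * mm L R e p A z) =
      fun z => ∫ x : R6, W z.1 * (cl6 L z.1 x * gg R e p A z.2 x) := by
    funext z
    unfold mm
    rw [integral_const_mul]
  have i1 : Integrable (fun z : R6 × ℝ => W z.1 * nn T L R e p A z) := by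
    rw [en]
    exact integrable_finset_sum _ fun t _ => (hO (r3 t)).1
  have i2 : Integrable (fun z : R6 × ℝ => W z.1 * mm L R e p A z) := by
    rw [em]
    exact hJ.integral_prod_left
  have v1 : ∫ z : R6 × ℝ, W z.1 * nn T L R e p A z = L ^ 6 * R * SW T L e W p A := by
    rw [en, integral_finset_sum _ fun t _ => (hO (r3 t)).1]
    unfold SW
    rw [Finset.mul_sum]
    refine Finset.sum_congr rfl fun t _ => ?_
    rw [(hO (r3 t)).2, difr_r3]
  have v2 : ∫ z : R6 × ℝ, W z.1 * mm L R e p A z = L ^ 6 * R * IW L e W p A := by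
    rw [em]
    have hsw := integral_integral_swap (μ := (volume : Measure (R6 × ℝ)))
      (ν := (volume : Measure R6))
      (f := fun z x => W z.1 * (cl6 L z.1 x * gg R e p A z.2 x)) hJ
    rw [hsw]
    unfold IW
    rw [← integral_const_mul]
    refine integral_congr_ae (Eventually.of_forall fun x => ?_)
    exact (hO x).2
  have es : (fun z : R6 × ℝ => W z.1 * (nn T L R e p A z - mm L R e p A z)) =
      fun z => W z.1 * nn T L R e p A z - W z.1 * mm L R e p A z := by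
    funext z
    ring
  rw [es]
  refine ⟨i1.sub i2, ?_⟩
  rw [integral_sub i1 i2, v1, v2]
  have h1 : L ^ 6 * R ≠ 0 := mul_ne_zero (pow_ne_zero 6 hL.ne') hR.ne'
  rw [← mul_sub, ← mul_assoc, inv_mul_cancel₀ h1, one_mul]

end Pool.Agent.F5H.H39
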