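import Pool.Agent.F5H.StmtsD

set_option autoImplicit false

/-!
# Squad F5H, row C_PER: periodic sets
-/

open MeasureTheory Complex ComplexConjugate

namespace Pool.Agent.F5H.H39

open Pool.Agent.BTL Pool.Agent.F5S Pool.Agent.F5H Pool.Agent.F5H.BC

theorem haar2 : (volume : Measure (ℝ × ℝ)).IsAddHaarMeasure := by
  rw [Measure.volume_eq_prod]; infer_instance

theorem haar3 : (volume : Measure (ℝ × ℝ × ℝ)).IsAddHaarMeasure := by
  have := haar2
  rw [Measure.volume_eq_prod]; infer_instance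

theorem haar4 : (volume : Measure ((ℝ × ℝ × ℝ) × ℝ)).IsAddHaarMeasure := by
  have := haar3
  rw [Measure.volume_eq_prod]; infer_instance

theorem per : PERStmt := by
  intro U hU
  have hHaar := haar4
  obtain ⟨S, hS⟩ : ∃ S : Set ((ℝ × ℝ × ℝ) × ℝ),
      S = U ∩ {a | a.2 ∈ Set.Ioc (-Real.pi) Real.pi} := ⟨_, rfl⟩
  have h3 := Real.pi_gt_three
  have hsub : U ∩ {a | |a.2| ≤ 6} ⊆ (S ∪ (fun a => a + ((0, 0, 0), -(2 * Real.pi))) ⁻¹' S) ∪
      (fun a => a + ((0, 0, 0), 2 * Real.pi)) ⁻¹' S := by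
    rintro ⟨A, th⟩ ⟨ha, hb⟩
    have hb' : |th| ≤ 6 := hb
    obtain ⟨hb1, hb2⟩ := abs_le.1 hb'
    rw [hS]
    by_cases h1 : Real.pi < th
    · left
      right
      have e : ((A, th) : (ℝ × ℝ × ℝ) × ℝ) + ((0, 0, 0), -(2 * Real.pi)) = (A, th - 2 * Real.pi) := by
        ext <;> simp [sub_eq_add_neg]
      refine ⟨?_, ?_⟩
      · change (A, th) + ((0, 0, 0), -(2 * Real.pi)) ∈ U
        rw [e, hU A (th - 2 * Real.pi), sub_add_cancel]
        exact ha
      · change (((A, th) : (ℝ × ℝ × ℝ) × ℝ) + ((0, 0, 0), -(2 * Real.pi))).2 ∈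
          Set.Ioc (-Real.pi) Real.pi
        rw [e]
        constructor
        · change -Real.pi < th - 2 * Real.pi
          linarith
        · change th - 2 * Real.pi ≤ Real.pi
          linarith
    · by_cases h2 : th ≤ -Real.pi
      · right
        have e : ((A, th) : (ℝ × ℝ × ℝ) × ℝ) + ((0, 0, 0), 2 * Real.pi) = (A, th + 2 * Real.pi) := by
          ext <;> simp
        refine ⟨?_, ?_⟩
        · change (A, th) + ((0, 0, 0), 2 * Real.pi) ∈ U
          rw [e]
          exact (hU A th).1 ha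
        · change (((A, th) : (ℝ × ℝ × ℝ) × ℝ) + ((0, 0, 0), 2 * Real.pi)).2 ∈
            Set.Ioc (-Real.pi) Real.pi
          rw [e]
          constructor
          · change -Real.pi < th + 2 * Real.pi
            linarith
          · change th + 2 * Real.pi ≤ Real.pi
            linarith
      · left
        left
        exact ⟨ha, not_le.1 h2, not_lt.1 h1⟩
  have m1 : volume ((fun a : (ℝ × ℝ × ℝ) × ℝ => a + ((0, 0, 0), -(2 * Real.pi))) ⁻¹' S)
      = volume S := measure_preimage_add_right _ _ _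
  have m2 : volume ((fun a : (ℝ × ℝ × ℝ) × ℝ => a + ((0, 0, 0), 2 * Real.pi)) ⁻¹' S)
      = volume S := measure_preimage_add_right _ _ _
  rw [← hS]
  calc volume (U ∩ {a | |a.2| ≤ 6}) ≤ volume ((S ∪ (fun a : (ℝ × ℝ × ℝ) × ℝ =>
          a + ((0, 0, 0), -(2 * Real.pi))) ⁻¹' S) ∪
          (fun a : (ℝ × ℝ × ℝ) × ℝ => a + ((0, 0, 0), 2 * Real.pi)) ⁻¹' S) := measure_mono hsub
    _ ≤ (volume S + volume S) + volume S := by
        refine (measure_union_le _ _).trans ?_
        rw [m2]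
        refine add_le_add_left ?_ _
        refine (measure_union_le _ _).trans ?_
        rw [m1]
    _ = 3 * volume S := by ring

end Pool.Agent.F5H.H39
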