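import Pool.Agent.F5H.StmtsA

set_option autoImplicit false

/-!
# Squad F5H, row A_SPT: the number of classes
-/

open MeasureTheory Filter Topology

namespace Pool.Agent.F5H.H39

open Pool.Agent.BTL Pool.Agent.F5S Pool.Agent.F5H

/-- the set of classes -/
def SS (A : ℝ × ℝ × ℝ) (a b : ℝ) : Set (R6 × ℝ) :=
  {z | |z.2| ≤ a ∧ |qf A z.1.1 - z.2| ≤ b ∧ |qf A z.1.2.1 - z.2| ≤ b ∧ |qf A z.1.2.2 - z.2| ≤ b}

theorem qf_cont (A : ℝ × ℝ × ℝ) : Continuous (qf A) := by
  unfold qf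
  fun_prop

theorem SS_meas (A : ℝ × ℝ × ℝ) (a b : ℝ) : MeasurableSet (SS A a b) := by
  have hq := qf_cont A
  have h1 : IsClosed {z : R6 × ℝ | |z.2| ≤ a} := isClosed_le (by fun_prop) continuous_const
  have h2 : IsClosed {z : R6 × ℝ | |qf A z.1.1 - z.2| ≤ b} :=
    isClosed_le (by fun_prop) continuous_const
  have h3 : IsClosed {z : R6 × ℝ | |qf A z.1.2.1 - z.2| ≤ b} :=
    isClosed_le (by fun_prop) continuous_const
  have h4 : IsClosed {z : R6 × ℝ | |qf A z.1.2.2 - z.2| ≤ b} :=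
    isClosed_le (by fun_prop) continuous_const
  exact (h1.inter (h2.inter (h3.inter h4))).measurableSet

theorem vol_prod3 (s t u : Set (ℝ × ℝ)) :
    (volume : Measure R6) (s ×ˢ (t ×ˢ u)) = volume s * (volume t * volume u) := by
  have h1 : (volume : Measure ((ℝ × ℝ) × (ℝ × ℝ))) (t ×ˢ u) = volume t * volume u :=
    Measure.prod_prod t u
  rw [← h1]
  exact Measure.prod_prod s (t ×ˢ u)

theorem SS_vol (ann : S_area_annulus) {M : ℝ} (hM : 1 ≤ M) {A : ℝ × ℝ × ℝ} (hA : A ∈ KM M)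
    {a b : ℝ} (ha : 0 ≤ a) (hb : 0 ≤ b) :
    volume (SS A a b) ≤ ENNReal.ofReal (2 * a * (8 * M * b) ^ 3) := by
  have hD : ∀ σ : ℝ, volume {y : ℝ × ℝ | |qf A y - σ| ≤ b} ≤ ENNReal.ofReal (8 * M * b) := by
    intro σ
    have h1 : {y : ℝ × ℝ | |qf A y - σ| ≤ b} ⊆
        {y : ℝ × ℝ | σ - b ≤ qf A y ∧ qf A y ≤ (σ - b) + 2 * b} := by
      intro y hy
      rw [Set.mem_ofPred_eq, abs_le] at hy
      exact ⟨by linarith [hy.1], by linarith [hy.2]⟩
    refine (measure_mono h1).trans ((ann M hM A hA (σ - b) (2 * b) (by linarith)).trans ?_)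
    exact ENNReal.ofReal_le_ofReal (by linarith)
  rw [Measure.volume_eq_prod, Measure.prod_apply_symm (SS_meas A a b)]
  have h2 : ∀ σ : ℝ, volume ((fun x : R6 => (x, σ)) ⁻¹' SS A a b) ≤
      (Metric.closedBall (0 : ℝ) a).indicator
        (fun _ => ENNReal.ofReal (8 * M * b) * (ENNReal.ofReal (8 * M * b) *
          ENNReal.ofReal (8 * M * b))) σ := by
    intro σ
    by_cases hσ : |σ| ≤ a
    · rw [Set.indicator_of_mem (by rw [mem_closedBall_zero_iff, Real.norm_eq_abs]; exact hσ)]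
      have h3 : (fun x : R6 => (x, σ)) ⁻¹' SS A a b ⊆ {y : ℝ × ℝ | |qf A y - σ| ≤ b} ×ˢ
          ({y : ℝ × ℝ | |qf A y - σ| ≤ b} ×ˢ {y : ℝ × ℝ | |qf A y - σ| ≤ b}) := by
        intro x hx
        exact ⟨hx.2.1, hx.2.2.1, hx.2.2.2⟩
      refine (measure_mono h3).trans ?_
      rw [vol_prod3]
      exact mul_le_mul' (hD σ) (mul_le_mul' (hD σ) (hD σ))
    · have h3 : (fun x : R6 => (x, σ)) ⁻¹' SS A a b = ∅ := by
        ext x
        simp only [Set.mem_preimage, Set.mem_empty_iff_false, iff_false]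
        intro hx
        exact hσ hx.1
      rw [h3, measure_empty]
      exact zero_le
  refine (lintegral_mono h2).trans ?_
  rw [lintegral_indicator_const Metric.isClosed_closedBall.measurableSet, Real.volume_closedBall]
  rw [← ENNReal.ofReal_mul (by positivity), ← ENNReal.ofReal_mul (by positivity),
    ← ENNReal.ofReal_mul (by positivity)]
  exact ENNReal.ofReal_le_ofReal (le_of_eq (by ring))

theorem spt (clf : CLFStmt) (ggf : GGFStmt) (ann : S_area_annulus) : SPTStmt := by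
  intro M hM e he p
  set K : ℝ := 20 * M + 1 + e + |p.1| + |p.2| with hK
  have hp1 := abs_nonneg p.1
  have hp2 := abs_nonneg p.2
  have hK1 : 1 ≤ K := by rw [hK]; linarith
  refine ⟨2 * (4 * M + K) * (8 * M * K) ^ 3, ?_, ?_⟩
  · have h1 : (1 : ℝ) ≤ 8 * M * K := by nlinarith
    have h2 : (1 : ℝ) ≤ (8 * M * K) ^ 3 := one_le_pow₀ h1
    nlinarith
  intro A hA T L R hT hL hLT hR hRT
  obtain ⟨c1, c2, c3, c4⟩ := clf L (by linarith)
  obtain ⟨g1, g2, g3, g4, -⟩ := ggf R e hR he p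
  have hTL : 1 ≤ T * L := by nlinarith
  refine ⟨SS A ((4 * M + K) * T ^ 2) (K * (T * L)), SS_meas _ _ _, ?_, ?_⟩
  · refine (SS_vol ann hM hA (by positivity) (by positivity)).trans ?_
    exact ENNReal.ofReal_le_ofReal (le_of_eq (by ring))
  intro c σ hc hS x
  by_contra hne
  have n1 := c3 c x (left_ne_zero_of_mul hne)
  have n2 := g3 A σ x (right_ne_zero_of_mul hne)
  apply hS
  have hAn := KM_abs_le hM hA
  have a1 : |A.1| ≤ M := (norm_fst_le A).trans hAn
  have a2 : |A.2.1| ≤ M := ((norm_fst_le A.2).trans (norm_snd_le A)).trans hAn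
  have a3 : |A.2.2| ≤ M := ((norm_snd_le A.2).trans (norm_snd_le A)).trans hAn
  -- the difference of the values
  have key : ∀ u v : ℝ × ℝ, nr u ≤ (2 * T) ^ 2 → ‖v - u‖ ≤ L → |qf A u - qf A v| ≤ 20 * M * (T * L) := by
    intro u v hu hv
    have d1 : |v.1 - u.1| ≤ L := (norm_fst_le (v - u)).trans hv
    have d2 : |v.2 - u.2| ≤ L := (norm_snd_le (v - u)).trans hv
    have u1 : |u.1| ≤ 2 * T := by
      apply abs_le_of_sq_le_sq _ (by linarith)
      unfold nr at hu
      nlinarith [sq_nonneg u.2]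
    have u2 : |u.2| ≤ 2 * T := by
      apply abs_le_of_sq_le_sq _ (by linarith)
      unfold nr at hu
      nlinarith [sq_nonneg u.1]
    have v1 : |v.1| ≤ 3 * T := by
      have : |v.1| ≤ |v.1 - u.1| + |u.1| := by
        have := abs_add_le (v.1 - u.1) u.1
        rwa [sub_add_cancel] at this
      linarith
    have v2 : |v.2| ≤ 3 * T := by
      have : |v.2| ≤ |v.2 - u.2| + |u.2| := by
        have := abs_add_le (v.2 - u.2) u.2
        rwa [sub_add_cancel] at this
      linarith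
    have e0 : qf A u - qf A v = A.1 * ((u.1 + v.1) * (u.1 - v.1)) +
        2 * A.2.1 * (u.2 * (u.1 - v.1) + v.1 * (u.2 - v.2)) +
        A.2.2 * ((u.2 + v.2) * (u.2 - v.2)) := by
      unfold qf
      ring
    have hd1 : |u.1 - v.1| ≤ L := by rw [abs_sub_comm]; exact d1
    have hd2 : |u.2 - v.2| ≤ L := by rw [abs_sub_comm]; exact d2
    have b1 : |(u.1 + v.1) * (u.1 - v.1)| ≤ 5 * T * L := by
      rw [abs_mul]
      exact mul_le_mul ((abs_add_le _ _).trans (by linarith)) hd1 (abs_nonneg _) (by linarith)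
    have b3 : |(u.2 + v.2) * (u.2 - v.2)| ≤ 5 * T * L := by
      rw [abs_mul]
      exact mul_le_mul ((abs_add_le _ _).trans (by linarith)) hd2 (abs_nonneg _) (by linarith)
    have b2 : |u.2 * (u.1 - v.1) + v.1 * (u.2 - v.2)| ≤ 5 * T * L := by
      refine (abs_add_le _ _).trans ?_
      rw [abs_mul, abs_mul]
      have i1 : |u.2| * |u.1 - v.1| ≤ 2 * T * L :=
        mul_le_mul u2 hd1 (abs_nonneg _) (by linarith)
      have i2 : |v.1| * |u.2 - v.2| ≤ 3 * T * L :=
        mul_le_mul v1 hd2 (abs_nonneg _) (by linarith)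
      linarith
    rw [e0]
    refine (abs_add_three _ _ _).trans ?_
    have h5 : (0 : ℝ) ≤ 5 * T * L := by nlinarith
    have j1 : |A.1 * ((u.1 + v.1) * (u.1 - v.1))| ≤ M * (5 * T * L) := by
      rw [abs_mul]
      exact mul_le_mul a1 b1 (abs_nonneg _) (by linarith)
    have j3 : |A.2.2 * ((u.2 + v.2) * (u.2 - v.2))| ≤ M * (5 * T * L) := by
      rw [abs_mul]
      exact mul_le_mul a3 b3 (abs_nonneg _) (by linarith)
    have j2 : |2 * A.2.1 * (u.2 * (u.1 - v.1) + v.1 * (u.2 - v.2))| ≤ 2 * M * (5 * T * L) := by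
      rw [abs_mul, abs_mul, abs_two]
      exact mul_le_mul (by linarith) b2 (abs_nonneg _) (by linarith)
    linarith
  have m1 : ‖x.1 - c.1‖ ≤ L := (norm_fst_le (x - c)).trans n1
  have m2 : ‖x.2.1 - c.2.1‖ ≤ L :=
    ((norm_fst_le (x - c).2).trans (norm_snd_le (x - c))).trans n1
  have m3 : ‖x.2.2 - c.2.2‖ ≤ L :=
    ((norm_snd_le (x - c).2).trans (norm_snd_le (x - c))).trans n1
  have q1 := key c.1 x.1 hc.1 m1
  have q2 := key c.2.1 x.2.1 hc.2.1 m2
  have q3 := key c.2.2 x.2.2 hc.2.2 m3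
  obtain ⟨w1, w2, w3⟩ := n2
  have hbase : R + e + |p.1| + |p.2| ≤ (1 + e + |p.1| + |p.2|) * (T * L) := by nlinarith
  have hKTL : 20 * M * (T * L) + (1 + e + |p.1| + |p.2|) * (T * L) = K * (T * L) := by
    rw [hK]; ring
  have s1 : |qf A c.1 - σ| ≤ K * (T * L) := by
    have t1 : |qf A x.1 - σ| ≤ R + e + |p.1| + |p.2| := by
      have : qf A x.1 - σ = (qf A x.1 - (p.1 + p.2) - σ) + (p.1 + p.2) := by ring
      rw [this]
      refine (abs_add_le _ _).trans ?_
      have := abs_add_le p.1 p.2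
      linarith
    have : qf A c.1 - σ = (qf A c.1 - qf A x.1) + (qf A x.1 - σ) := by ring
    rw [this]
    refine (abs_add_le _ _).trans ?_
    linarith
  have s2 : |qf A c.2.1 - σ| ≤ K * (T * L) := by
    have t1 : |qf A x.2.1 - σ| ≤ R + e + |p.1| + |p.2| := by
      have : qf A x.2.1 - σ = (qf A x.2.1 - p.2 - σ) + p.2 := by ring
      rw [this]
      refine (abs_add_le _ _).trans ?_
      linarith
    have : qf A c.2.1 - σ = (qf A c.2.1 - qf A x.2.1) + (qf A x.2.1 - σ) := by ring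
    rw [this]
    refine (abs_add_le _ _).trans ?_
    linarith
  have s3 : |qf A c.2.2 - σ| ≤ K * (T * L) := by
    have : qf A c.2.2 - σ = (qf A c.2.2 - qf A x.2.2) + (qf A x.2.2 - σ) := by ring
    rw [this]
    refine (abs_add_le _ _).trans ?_
    linarith
  refine ⟨?_, s1, s2, s3⟩
  show |σ| ≤ (4 * M + K) * T ^ 2
  have hv := hA c.2.2
  have hn : nr c.2.2 ≤ (2 * T) ^ 2 := hc.2.2
  have hn0 : 0 ≤ nr c.2.2 := by unfold nr; positivity
  have v0 : 0 ≤ qf A c.2.2 := le_trans (by positivity) hv.1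
  have v1 : qf A c.2.2 ≤ 4 * M * T ^ 2 := by
    refine hv.2.trans ?_
    nlinarith
  have v2 : K * (T * L) ≤ K * T ^ 2 := by
    apply mul_le_mul_of_nonneg_left _ (by linarith)
    nlinarith
  have v3 : |σ| ≤ |qf A c.2.2| + |qf A c.2.2 - σ| := by
    have h9 := abs_sub_abs_le_abs_sub σ (qf A c.2.2)
    rw [abs_sub_comm σ] at h9
    linarith
  rw [abs_of_nonneg v0] at v3
  linarith

end Pool.Agent.F5H.H39
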